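import Pool.Agent.Lib_helper52.YG.Defs

set_option autoImplicit false

namespace Pool.Agent.YG

open MeasureTheory ENNReal Set Filter Topology Pool.Agent.EPS

/-- the integral over the two products, iterated -/
theorem s9_fubini {G H : Type*} [MeasureSpace G] [SFinite (volume : Measure G)]
    [MeasureSpace H] [SFinite (volume : Measure H)]
    (F : (G × H) × (G × H) → ℝ≥0∞) (hF : Measurable F) :
    ∫⁻ p : G × H, ∫⁻ q : G × H, F (p, q) =
      ∫⁻ x : G, ∫⁻ y : G, ∫⁻ x' : H, ∫⁻ y' : H, F ((x, x'), (y, y')) := by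
  have hm1 : Measurable (fun p : G × H => ∫⁻ q : G × H, F (p, q)) :=
    hF.lintegral_prod_right'
  have e1 : ∫⁻ p : G × H, ∫⁻ q : G × H, F (p, q) =
      ∫⁻ x : G, ∫⁻ x' : H, ∫⁻ q : G × H, F ((x, x'), q) :=
    lintegral_prod (μ := (volume : Measure G)) (ν := (volume : Measure H)) _ hm1.aemeasurable
  rw [e1]
  refine lintegral_congr fun x => ?_
  have e2 : ∀ x' : H, ∫⁻ q : G × H, F ((x, x'), q) =
      ∫⁻ y : G, ∫⁻ y' : H, F ((x, x'), (y, y')) := by
    intro x'
    have hm2 : Measurable (fun q : G × H => F ((x, x'), q)) :=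
      hF.comp measurable_prodMk_left
    exact lintegral_prod (μ := (volume : Measure G)) (ν := (volume : Measure H)) _
      hm2.aemeasurable
  rw [lintegral_congr e2]
  have hm3 : Measurable (fun w : (H × G) × H => F ((x, w.1.1), (w.1.2, w.2))) := by
    refine hF.comp ?_
    exact ((measurable_const.prodMk (measurable_fst.comp measurable_fst)).prodMk
      ((measurable_snd.comp measurable_fst).prodMk measurable_snd))
  have hm4 : Measurable (fun w : H × G => ∫⁻ y' : H, F ((x, w.1), (w.2, y'))) :=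
    hm3.lintegral_prod_right'
  exact lintegral_lintegral_swap
    (f := fun (x' : H) (y : G) => ∫⁻ y' : H, F ((x, x'), (y, y'))) hm4.aemeasurable

/-- tensorisation -/
theorem YG_prod {G H : Type*} [MeasureSpace G] [Add G] [MeasurableAdd₂ G]
    [SFinite (volume : Measure G)] [MeasureSpace H] [Add H] [MeasurableAdd₂ H]
    [SFinite (volume : Measure H)] {c1 c2 c3 κ κ' : ℝ} (h : Wt c1 c2 c3) (hκ : 0 ≤ κ)
    (h1 : YG G c1 c2 c3 κ) (h2 : YG H c1 c2 c3 κ') : YG (G × H) c1 c2 c3 (κ * κ') := by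
  intro f g k hf hg hk
  have hadd : Measurable (fun w : (G × H) × (G × H) => w.1 + w.2) := by
    have a1 : Measurable (fun w : (G × H) × (G × H) => w.1.1 + w.2.1) :=
      (measurable_fst.comp measurable_fst).add (measurable_fst.comp measurable_snd)
    have a2 : Measurable (fun w : (G × H) × (G × H) => w.1.2 + w.2.2) :=
      (measurable_snd.comp measurable_fst).add (measurable_snd.comp measurable_snd)
    exact a1.prodMk a2
  have hF : Measurable (fun w : (G × H) × (G × H) =>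
      f w.1 ^ c1 * g w.2 ^ c2 * k (w.1 + w.2) ^ c3) :=
    (((hf.comp measurable_fst).pow_const c1).mul ((hg.comp measurable_snd).pow_const c2)).mul
      ((hk.comp hadd).pow_const c3)
  have hfm : Measurable (fun x : G => ∫⁻ x' : H, f (x, x')) := hf.lintegral_prod_right'
  have hgm : Measurable (fun x : G => ∫⁻ x' : H, g (x, x')) := hg.lintegral_prod_right'
  have hkm : Measurable (fun x : G => ∫⁻ x' : H, k (x, x')) := hk.lintegral_prod_right'
  have ef : ∫⁻ p : G × H, f p = ∫⁻ x : G, ∫⁻ x' : H, f (x, x') :=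
    lintegral_prod (μ := (volume : Measure G)) (ν := (volume : Measure H)) _ hf.aemeasurable
  have eg : ∫⁻ p : G × H, g p = ∫⁻ x : G, ∫⁻ x' : H, g (x, x') :=
    lintegral_prod (μ := (volume : Measure G)) (ν := (volume : Measure H)) _ hg.aemeasurable
  have ek : ∫⁻ p : G × H, k p = ∫⁻ x : G, ∫⁻ x' : H, k (x, x') :=
    lintegral_prod (μ := (volume : Measure G)) (ν := (volume : Measure H)) _ hk.aemeasurable
  have e0 := s9_fubini (fun w : (G × H) × (G × H) =>
      f w.1 ^ c1 * g w.2 ^ c2 * k (w.1 + w.2) ^ c3) hF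
  have inner : ∀ x y : G, ∫⁻ x' : H, ∫⁻ y' : H,
      f (x, x') ^ c1 * g (y, y') ^ c2 * k ((x, x') + (y, y')) ^ c3 ≤
      ENNReal.ofReal κ' * ((∫⁻ x' : H, f (x, x')) ^ c1 * (∫⁻ x' : H, g (y, x')) ^ c2 *
        (∫⁻ x' : H, k (x + y, x')) ^ c3) := by
    intro x y
    exact h2 (fun x' => f (x, x')) (fun x' => g (y, x')) (fun x' => k (x + y, x'))
      (hf.comp measurable_prodMk_left) (hg.comp measurable_prodMk_left)
      (hk.comp measurable_prodMk_left)
  have outer := h1 _ _ _ hfm hgm hkm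
  calc ∫⁻ p : G × H, ∫⁻ q : G × H, f p ^ c1 * g q ^ c2 * k (p + q) ^ c3
      = ∫⁻ x : G, ∫⁻ y : G, ∫⁻ x' : H, ∫⁻ y' : H,
          f (x, x') ^ c1 * g (y, y') ^ c2 * k ((x, x') + (y, y')) ^ c3 := e0
    _ ≤ ∫⁻ x : G, ∫⁻ y : G, ENNReal.ofReal κ' * ((∫⁻ x' : H, f (x, x')) ^ c1 *
          (∫⁻ x' : H, g (y, x')) ^ c2 * (∫⁻ x' : H, k (x + y, x')) ^ c3) :=
        lintegral_mono fun x => lintegral_mono fun y => inner x y
    _ = ENNReal.ofReal κ' * ∫⁻ x : G, ∫⁻ y : G, ((∫⁻ x' : H, f (x, x')) ^ c1 *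
          (∫⁻ x' : H, g (y, x')) ^ c2 * (∫⁻ x' : H, k (x + y, x')) ^ c3) := by
        rw [← lintegral_const_mul' _ _ ENNReal.ofReal_ne_top]
        refine lintegral_congr fun x => ?_
        rw [← lintegral_const_mul' _ _ ENNReal.ofReal_ne_top]
    _ ≤ ENNReal.ofReal κ' * (ENNReal.ofReal κ * ((∫⁻ x : G, ∫⁻ x' : H, f (x, x')) ^ c1 *
          (∫⁻ x : G, ∫⁻ x' : H, g (x, x')) ^ c2 * (∫⁻ x : G, ∫⁻ x' : H, k (x, x')) ^ c3)) :=
        mul_le_mul_right outer _
    _ = ENNReal.ofReal (κ * κ') * ((∫⁻ p : G × H, f p) ^ c1 * (∫⁻ p : G × H, g p) ^ c2 *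
          (∫⁻ p : G × H, k p) ^ c3) := by
        rw [ef, eg, ek, ENNReal.ofReal_mul hκ, ← mul_assoc,
          mul_comm (ENNReal.ofReal κ') (ENNReal.ofReal κ)]

/-- transport -/
theorem YG_equiv {G H : Type*} [MeasureSpace G] [Add G] [MeasureSpace H] [Add H]
    {c1 c2 c3 κ : ℝ} (e : G ≃ᵐ H) (he : ∀ x y, e (x + y) = e x + e y)
    (hm : MeasurePreserving e volume volume) (h1 : YG G c1 c2 c3 κ) : YG H c1 c2 c3 κ := by
  intro f g k hf hg hk
  have key := h1 (fun x => f (e x)) (fun x => g (e x)) (fun x => k (e x))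
    (hf.comp e.measurable) (hg.comp e.measurable) (hk.comp e.measurable)
  have ef : ∫⁻ x, f (e x) = ∫⁻ x, f x := hm.lintegral_comp_emb e.measurableEmbedding f
  have eg : ∫⁻ x, g (e x) = ∫⁻ x, g x := hm.lintegral_comp_emb e.measurableEmbedding g
  have ek : ∫⁻ x, k (e x) = ∫⁻ x, k x := hm.lintegral_comp_emb e.measurableEmbedding k
  have el : ∫⁻ x, ∫⁻ y, f (e x) ^ c1 * g (e y) ^ c2 * k (e (x + y)) ^ c3 =
      ∫⁻ x, ∫⁻ y, f x ^ c1 * g y ^ c2 * k (x + y) ^ c3 := by
    have e1 : ∀ x : G, ∫⁻ y : G, f (e x) ^ c1 * g (e y) ^ c2 * k (e (x + y)) ^ c3 =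
        ∫⁻ y : H, f (e x) ^ c1 * g y ^ c2 * k (e x + y) ^ c3 := by
      intro x
      have := hm.lintegral_comp_emb e.measurableEmbedding
        (fun y : H => f (e x) ^ c1 * g y ^ c2 * k (e x + y) ^ c3)
      rw [← this]
      refine lintegral_congr fun y => ?_
      rw [he]
    rw [lintegral_congr e1]
    exact hm.lintegral_comp_emb e.measurableEmbedding
      (fun x : H => ∫⁻ y : H, f x ^ c1 * g y ^ c2 * k (x + y) ^ c3)
  rw [← ef, ← eg, ← ek, ← el]
  exact key

end Pool.Agent.YG
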